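import Mathlib
import Pool.Agent.H.MP_fe632d_an.E

set_option autoImplicit false

namespace Pool.Agent.Results.MP_fe632d_an.AllCompact

open MeasureTheory Pool.Agent.H.MP_fe632d_an

theorem result (X : Type) [MeasurableSpace X] [StandardBorelSpace X] (μ : Measure X) [SigmaFinite μ] :
    AllC (sz μ) ↔
      (∀ x, μ {x} = 0) ∨ μ {x | μ {x} = 0} = 0 := by
  rw [AllC, alg]
  refine ⟨fun h => by_contra fun n => ?_, fun h => h.elim (fun h => have : NullSingletonClass μ := ⟨h⟩
    diffuse) atomic⟩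
  push Not at n
  obtain ⟨⟨x, a⟩, b⟩ := n
  obtain ⟨K, c, d⟩ := mixed a b
  exact d (h K c)

end Pool.Agent.Results.MP_fe632d_an.AllCompact
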