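import Mathlib
import Pool.Agent.H.MP_fe632d_an.E

set_option autoImplicit false

namespace Pool.Agent.Results.MP_fe632d_an.Nonzero

open MeasureTheory Pool.Agent.H.MP_fe632d_an InnerProductSpace

theorem result (X : Type) [MeasurableSpace X] [StandardBorelSpace X] (μ : Measure X) [SigmaFinite μ]
    (h : μ ≠ 0) : SomeC (sz μ) := by
  rw [SomeC, alg]
  by_cases a : ∀ x, μ {x} = 0
  · have : NullSingletonClass μ := ⟨a⟩
    obtain ⟨B, b1, -, b3, b4⟩ := Measure.exists_subset_measure_lt_top .univ
      (Measure.measure_univ_pos.2 h)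
    have : (indicatorConstLp 2 b1 b4.ne 1 : L2 μ) ≠ 0 := fun e => by
      simpa [norm_indicatorConstLp, Measure.real, ENNReal.toReal_eq_zero_iff, b3.ne', b4.ne] using
        congrArg norm e
    exact ⟨_, rankOne_ne_zero this this, rc _ _, diffuse _ (rc _ _)⟩
  push Not at a
  obtain ⟨x, a⟩ := a
  have : pt μ x ≠ 0 := fun e => by simpa [pt, norm_indicatorConstLp, pt_ne a] using congrArg norm e
  exact ⟨_, rankOne_ne_zero this this, rc _ _, subset_closure (atom a a)⟩

end Pool.Agent.Results.MP_fe632d_an.Nonzero
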